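import Mathlib

/-!
# Complete shifted `A_∞`-algebras, dg algebras and simplicial dg algebras
-/

open scoped TensorProduct
open CategoryTheory

universe u

namespace Pool.Agent.Helper4.MCX

/-- A complete (possibly curved) shifted `A_∞`-algebra structure on the `K`-vector space `V`. -/
structure AInf (K V : Type u) [Field K] [AddCommGroup V] [Module K V] where
  /-- the homogeneous component of degree `i` -/
  gr : ℤ → Submodule K V
  /-- `V` is the direct sum of its homogeneous components -/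
  internal : DirectSum.IsInternal gr
  /-- the filtration `V = F 1 ⊇ F 2 ⊇ ⋯` (there is also `F 0`, which is `V` as well) -/
  F : ℕ → Submodule K V
  F_anti : Antitone F
  F_one : F 1 = ⊤
  /-- the steps of the filtration are graded subspaces -/
  F_gr : ∀ p, F p ≤ ⨆ i, F p ⊓ gr i
  F_sep : ⨅ p, F p = ⊥
  /-- completeness (as a graded vector space, that is, degree by degree) -/
  F_complete : ∀ (i : ℤ) (x : ℕ → V), (∀ p, x p ∈ gr i) → (∀ p, x (p + 1) - x p ∈ F p) →
    ∃ y ∈ gr i, ∀ p, y - x p ∈ F p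
  /-- the operations `Q_0, Q_1, Q_2, …` -/
  Q : ∀ k : ℕ, MultilinearMap K (fun _ : Fin k => V) V
  /-- `Q_k` has degree `1` -/
  Q_deg : ∀ (k : ℕ) (i : Fin k → ℤ) (x : Fin k → V), (∀ l, x l ∈ gr (i l)) →
    Q k x ∈ gr (∑ l, i l + 1)
  /-- `Q_k` respects the filtration -/
  Q_filt : ∀ (k : ℕ) (p : Fin k → ℕ) (x : Fin k → V), (∀ l, x l ∈ F (p l)) →
    Q k x ∈ F (∑ l, p l)
  /-- the relation `Q² = 0`: for all `n ≥ 0` and homogeneous `x_0, …, x_{n-1}`,
  `∑ (-1)^{|x_0| + ⋯ + |x_{r-1}|} Q (x_0, …, x_{r-1}, Q_s (x_r, …, x_{r+s-1}), x_{r+s}, …, x_{n-1})`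
  vanishes, the sum being over all `r, s ≥ 0` with `r + s ≤ n` -/
  Q_rel : ∀ (n : ℕ) (i : ℕ → ℤ) (x : ℕ → V), (∀ l, x l ∈ gr (i l)) →
    ∑ s ∈ Finset.range (n + 1), ∑ r ∈ Finset.range (n - s + 1),
      (∑ l ∈ Finset.range r, i l).negOnePow •
        Q (n - s + 1) (fun t => if (t : ℕ) < r then x t
          else if (t : ℕ) = r then Q s (fun j => x (r + j)) else x (t + s - 1)) = 0

/-- A dg associative algebra structure, cohomologically graded in degrees `≥ 0`, on the
`K`-algebra `E`. -/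
structure DG (K E : Type u) [Field K] [Ring E] [Algebra K E] where
  /-- the homogeneous component of degree `i` -/
  deg : ℕ → Submodule K E
  internal : DirectSum.IsInternal deg
  one_mem : (1 : E) ∈ deg 0
  mul_mem : ∀ (i j : ℕ) (x y : E), x ∈ deg i → y ∈ deg j → x * y ∈ deg (i + j)
  /-- the differential -/
  d : E →ₗ[K] E
  d_mem : ∀ (i : ℕ) (x : E), x ∈ deg i → d x ∈ deg (i + 1)
  d_d : ∀ x : E, d (d x) = 0
  leibniz : ∀ (i : ℕ) (x y : E), x ∈ deg i → d (x * y) = d x * y + (-1 : K) ^ i • (x * d y)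

/-- The structure of a simplicial dg algebra on the family of `K`-algebras `E n`. -/
structure SDG (K : Type u) (E : SimplexCategory → Type u) [Field K] [∀ n, Ring (E n)]
    [∀ n, Algebra K (E n)] where
  /-- the dg algebra in simplicial degree `n` -/
  dg : ∀ n, DG K (E n)
  /-- the faces, degeneracies, … -/
  map : ∀ {m n : SimplexCategory}, (m ⟶ n) → (E n →ₐ[K] E m)
  map_id : ∀ (n : SimplexCategory) (x : E n), map (𝟙 n) x = x
  map_comp : ∀ {l m n : SimplexCategory} (a : l ⟶ m) (b : m ⟶ n) (x : E n),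
    map (a ≫ b) x = map a (map b x)
  map_mem : ∀ {m n : SimplexCategory} (a : m ⟶ n) (i : ℕ) (x : E n),
    x ∈ (dg n).deg i → map a x ∈ (dg m).deg i
  map_d : ∀ {m n : SimplexCategory} (a : m ⟶ n) (x : E n),
    map a ((dg n).d x) = (dg m).d (map a x)

section

variable {K V : Type u} [Field K] [AddCommGroup V] [Module K V]

/-- The filtration of `A ⊗ E`: the image of `F^p A ⊗ E`. -/
noncomputable def AInf.Fil (A : AInf K V) (E : Type u) [Ring E] [Algebra K E] (p : ℕ) :
    Submodule K (V ⊗[K] E) :=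
  LinearMap.range (LinearMap.rTensor E (A.F p).subtype)

/-- The component of total degree `0` of `A ⊗ E`. -/
noncomputable def AInf.Zero (A : AInf K V) {E : Type u} [Ring E] [Algebra K E] (C : DG K E) :
    Submodule K (V ⊗[K] E) :=
  Submodule.span K {x | ∃ (j : ℕ) (v : V) (e : E), v ∈ A.gr (-j) ∧ e ∈ C.deg j ∧ x = v ⊗ₜ[K] e}

theorem AInf.Fil_anti (A : AInf K V) (E : Type u) [Ring E] [Algebra K E] :
    Antitone (A.Fil E) := by
  intro p q hpq
  rintro _ ⟨x, rfl⟩
  refine ⟨LinearMap.rTensor E (Submodule.inclusion (A.F_anti hpq)) x, ?_⟩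
  rw [← LinearMap.comp_apply, ← LinearMap.rTensor_comp]
  rfl

end

end Pool.Agent.Helper4.MCX
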