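import Pool.Agent.Helper4.MCX.Basic

/-!
# The simplicial dg algebras of normalized cochains and of polynomial differential forms
-/

open CategoryTheory

universe u

namespace Pool.Agent.Helper4.MCX.SDG

variable {K : Type u} [Field K] {E : SimplexCategory → Type u} [∀ n, Ring (E n)]
  [∀ n, Algebra K (E n)]

/-- `C` is the simplicial dg algebra `N^•(Δ^•)` of normalized simplicial cochains of the standard
simplices with the cup product: the elements of `E n` are identified by `val` with the functions
on the lists of vertices of `Δ^n` which vanish except on the nonempty strictly increasing lists,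
that is, on the nondegenerate simplices. -/
structure IsCochains (C : SDG K E) (val : ∀ n, E n → List (Fin (n.len + 1)) → K) : Prop where
  add : ∀ n (x y : E n) l, val n (x + y) l = val n x l + val n y l
  smul : ∀ n (c : K) (x : E n) l, val n (c • x) l = c * val n x l
  inj : ∀ n, Function.Injective (val n)
  range : ∀ n (f : List (Fin (n.len + 1)) → K),
    (∃ x, val n x = f) ↔ f [] = 0 ∧ ∀ l, ¬ l.Pairwise (· < ·) → f l = 0
  /-- the cochains of degree `j` vanish except on the `j`-simplices -/
  deg : ∀ n j (x : E n), x ∈ (C.dg n).deg j ↔ ∀ l, l.length ≠ j + 1 → val n x l = 0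
  /-- the product is the cup product
  `(x ∪ y) (v_0, …, v_m) = ∑_i x (v_0, …, v_i) y (v_i, …, v_m)` -/
  mul : ∀ n (x y : E n) l, val n (x * y) l =
    ∑ i ∈ Finset.range l.length, val n x (l.take (i + 1)) * val n y (l.drop i)
  /-- the differential is `(d x) (v_0, …, v_m) = ∑_i (-1)^i x (v_0, …, v_{i-1}, v_{i+1}, …, v_m)` -/
  d : ∀ n (x : E n) l, l.Pairwise (· < ·) → val n ((C.dg n).d x) l =
    ∑ i ∈ Finset.range l.length, (-1) ^ i * val n x (l.eraseIdx i)
  /-- the simplicial structure is the pullback of cochains -/
  map : ∀ m n (a : m ⟶ n) (x : E n) l, val m (C.map a x) l = val n x (l.map a.toOrderHom)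

/-- `C` is the simplicial dg algebra `Ω_•` of polynomial differential forms on the standard
simplices, with barycentric coordinates `t n i`: the algebra `E n` is the free graded commutative
algebra on `t_1, …, t_n` of degree `0` and `dt_1, …, dt_n` of degree `1`. -/
structure IsForms (C : SDG K E) (t : ∀ n : SimplexCategory, Fin (n.len + 1) → E n) : Prop where
  mem : ∀ n i, t n i ∈ (C.dg n).deg 0
  sum : ∀ n, ∑ i, t n i = 1
  /-- the simplicial structure is the pullback of forms -/
  map : ∀ m n (a : m ⟶ n) j, C.map a (t n j) = ∑ i with a.toOrderHom i = j, t m i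
  /-- graded commutativity -/
  comm : ∀ n i j (x y : E n), x ∈ (C.dg n).deg i → y ∈ (C.dg n).deg j →
    x * y = (-1 : K) ^ (i * j) • (y * x)
  /-- the universal property of the free graded commutative algebra -/
  univ : ∀ (n : SimplexCategory) (B : Type u) [Ring B] [Algebra K B] (b c : Fin n.len → B),
    (∀ i j, b i * b j = b j * b i) → (∀ i j, b i * c j = c j * b i) →
    (∀ i j, c i * c j = -(c j * c i)) →
      ∃! φ : E n →ₐ[K] B, ∀ i, φ (t n i.succ) = b i ∧ φ ((C.dg n).d (t n i.succ)) = c i

end Pool.Agent.Helper4.MCX.SDG
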