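import Pool.Agent.Helper4.MCX.Sets
import Pool.Agent.Helper4.MCX.Models
import Pool.Agent.Helper4.MCA.Main

/-!
Comparison of the Maurer–Cartan simplicial sets with the bundled versions.
-/

open scoped TensorProduct
open CategoryTheory Opposite

universe u

namespace Pool.Agent.Helper4.MCX

open MCA MCB

variable {K : Type u} [Field K]

/-- The standard model of normalized cochains. -/
noncomputable def ncSDG (K : Type u) [Field K] [CharZero K] : SDG K (fun n => NCo K n) where
  dg n :=
    { deg := (ncoDGA K).deg n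
      internal := (ncoDGA K).internal n
      one_mem := (ncoDGA K).one_mem n
      mul_mem := (ncoDGA K).mul_mem n
      d := (ncoDGA K).d n
      d_mem := (ncoDGA K).d_mem n
      d_d := (ncoDGA K).d_d n
      leibniz := (ncoDGA K).leibniz n }
  map a := (ncoDGA K).map a
  map_id := (ncoDGA K).map_id
  map_comp a b x := (ncoDGA K).map_comp a b x
  map_mem a := (ncoDGA K).map_mem a
  map_d a := (ncoDGA K).map_d a

/-- The standard model of polynomial forms. -/
noncomputable def prSDG (K : Type u) [Field K] [CharZero K] :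
    SDG K (fun n => Pres (OmegaRel K) n) where
  dg n :=
    { deg := (omegaDGA K).deg n
      internal := (omegaDGA K).internal n
      one_mem := (omegaDGA K).one_mem n
      mul_mem := (omegaDGA K).mul_mem n
      d := (omegaDGA K).d n
      d_mem := (omegaDGA K).d_mem n
      d_d := (omegaDGA K).d_d n
      leibniz := (omegaDGA K).leibniz n }
  map a := (omegaDGA K).map a
  map_id := (omegaDGA K).map_id
  map_comp a b x := (omegaDGA K).map_comp a b x
  map_mem a := (omegaDGA K).map_mem a
  map_d a := (omegaDGA K).map_d a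

theorem ncSDG_old [CharZero K] : (ncSDG K).old = ncoDGA K := rfl
theorem prSDG_old [CharZero K] : (prSDG K).old = omegaDGA K := rfl

variable {V : Type u} [AddCommGroup V] [Module K V] (A : AInf K V)

section General

variable {E : SimplexCategory → Type u} [∀ n, Ring (E n)] [∀ n, Algebra K (E n)] (C : SDG K E)
  (n : SimplexCategory)

theorem ext_old {k : ℕ} (q : MultilinearMap K (fun _ : Fin k => V) V) :
    A.ext (C.dg n) q = A.old.koszulExt C.old n q :=
  (A.ext_spec (C.dg n) q).unique (isExt_old A C n q)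

theorem dif_old : A.dif (C.dg n) = TensorProduct.map (parity A.internal) (C.dg n).d :=
  (A.dif_spec (C.dg n)).unique (isDif_old A (C.dg n))

theorem ell_old (k : ℕ) : A.ell k = A.old.ell k := (A.ell_spec k).unique (isEll_old A k)

theorem ext_smul {k : ℕ} (c : K) (q : MultilinearMap K (fun _ : Fin k => V) V) :
    A.ext (C.dg n) (c • q) = c • A.ext (C.dg n) q := by
  refine (A.ext_spec (C.dg n) (c • q)).unique ?_
  intro i j v e hv he
  rw [smul_apply, A.ext_spec (C.dg n) q i j v e hv he, smul_comm]
  congr 1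

theorem curv_old (N : ℕ) (y : V ⊗[K] E n) :
    A.curv (C.dg n) A.Q N y = A.old.curvK C.old n N y := by
  unfold AInf.curv CAInf.curvK
  rw [dif_old, add_comm]
  congr 1
  exact Finset.sum_congr rfl (fun k _ => by rw [ext_old]; rfl)

theorem curvL_old (N : ℕ) (y : V ⊗[K] E n) :
    A.curv (C.dg n) (fun k => (k.factorial : K)⁻¹ • A.ell k) N y =
      A.old.curvL C.old n N y := by
  unfold AInf.curv CAInf.curvL
  rw [dif_old, add_comm]
  congr 1
  refine Finset.sum_congr rfl (fun k _ => ?_)
  rw [ext_smul, ext_old, ell_old]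
  rfl

theorem Zero_old : A.Zero (C.dg n) = A.old.Dg (C.dg n).deg 0 := by
  unfold AInf.Zero CAInf.Dg
  congr 1
  ext x
  constructor
  · rintro ⟨j, v, e, hv, he, rfl⟩
    exact ⟨-j, j, v, e, hv, he, by omega, rfl⟩
  · rintro ⟨i, j, v, e, hv, he, hij, rfl⟩
    have : i = -(j : ℤ) := by omega
    subst this
    exact ⟨j, v, e, hv, he, rfl⟩

theorem Fil_old (p : ℕ) : A.Fil (E n) p = A.old.Fil (E n) p := rfl

theorem IsMC_old (y : V ⊗[K] E n) : A.IsMC (C.dg n) A.Q y ↔
    y ∈ A.old.Dg (C.dg n).deg 0 ∧ ∀ p, A.old.curvK C.old n p y ∈ A.old.Fil (E n) p := by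
  unfold AInf.IsMC
  rw [Zero_old]
  simp only [curv_old]
  rfl

theorem rep_old (p : ℕ) (z : (V ⊗[K] E n) ⧸ A.Fil (E n) p) :
    (∃ y ∈ A.Zero (C.dg n), Submodule.Quotient.mk y = z ∧
      A.curv (C.dg n) (fun k => (k.factorial : K)⁻¹ • A.ell k) p y ∈ A.Fil (E n) p) ↔
    ∃ y ∈ A.old.Dg (C.dg n).deg 0, Submodule.Quotient.mk y = z ∧
      A.old.curvL C.old n p y ∈ A.old.Fil (E n) p := by
  rw [Zero_old]
  simp only [curvL_old]
  rfl

end General

variable [CharZero K]

/-- comparison for cochains -/
noncomputable def isoN : A.MC (ncSDG K) A.Q ≅ A.old.MCN where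
  hom :=
    { app := fun n => ↾fun x => ⟨x.val, (IsMC_old A (ncSDG K) n.unop x.val).1 x.isMC⟩
      naturality := by intro n m θ; rfl }
  inv :=
    { app := fun n => ↾fun x => ⟨x.1, (IsMC_old A (ncSDG K) n.unop x.1).2 x.2⟩
      naturality := by intro n m θ; rfl }
  hom_inv_id := by rfl
  inv_hom_id := by rfl

/-- comparison for forms -/
noncomputable def isoL :
    A.MCC (prSDG K) (fun k => (k.factorial : K)⁻¹ • A.ell k) ≅ A.old.MCL where
  hom :=
    { app := fun n => ↾fun x => ⟨⟨x.val.val, x.val.compat⟩, fun p =>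
        (rep_old A (prSDG K) n.unop p (x.val.val p)).1 (x.isMCC p)⟩
      naturality := by intro n m θ; rfl }
  inv :=
    { app := fun n => ↾fun x => ⟨⟨x.1.val, x.1.compat⟩, fun p =>
        (rep_old A (prSDG K) n.unop p (x.1.val p)).2 (x.2 p)⟩
      naturality := by intro n m θ; rfl }
  hom_inv_id := by rfl
  inv_hom_id := by rfl

end Pool.Agent.Helper4.MCX
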