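import Pool.Agent.Helper4.MCX.SetsAux

/-!
# Functoriality of Maurer–Cartan elements in the dg algebra
-/

open scoped TensorProduct
open CategoryTheory Opposite

universe u

namespace Pool.Agent.Helper4.MCX.AInf

section

variable {K V E E' : Type u} [Field K] [AddCommGroup V] [Module K V] [Ring E] [Algebra K E]
  [Ring E'] [Algebra K E'] {A : AInf K V} {C : DG K E} {C' : DG K E'}
  {q : ∀ k : ℕ, MultilinearMap K (fun _ : Fin k => V) V}

/-- The map `id ⊗ φ` on Maurer–Cartan elements, for `φ` a map of dg algebras. -/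
noncomputable def MCElt.map (φ : E →ₐ[K] E') (h : ∀ i x, x ∈ C.deg i → φ x ∈ C'.deg i)
    (hd : ∀ x, φ (C.d x) = C'.d (φ x)) (x : A.MCElt C q) : A.MCElt C' q :=
  ⟨LinearMap.lTensor V φ.toLinearMap x.val, A.IsMC_nat C C' φ h hd x.isMC⟩

/-- The map `id ⊗ φ` on Maurer–Cartan elements, for `φ` a map of dg algebras. -/
noncomputable def MCCElt.map (φ : E →ₐ[K] E') (h : ∀ i x, x ∈ C.deg i → φ x ∈ C'.deg i)
    (hd : ∀ x, φ (C.d x) = C'.d (φ x)) (x : A.MCCElt C q) : A.MCCElt C' q :=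
  ⟨Compl.map φ.toLinearMap x.val, A.IsMCC_nat C C' φ h hd x.isMCC⟩

end

end Pool.Agent.Helper4.MCX.AInf
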