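import Pool.Agent.Helper4.MCX.Elt

/-!
Functoriality laws.
-/

open scoped TensorProduct
open CategoryTheory

universe u

namespace Pool.Agent.Helper4.MCX.AInf

variable {K V E E' E'' : Type u} [Field K] [AddCommGroup V] [Module K V] [Ring E] [Algebra K E]
  [Ring E'] [Algebra K E'] [Ring E''] [Algebra K E''] {A : AInf K V} {C : DG K E} {C' : DG K E'}
  {C'' : DG K E''} {q : ∀ k : ℕ, MultilinearMap K (fun _ : Fin k => V) V}

theorem MCElt.ext {x y : A.MCElt C q} (h : x.val = y.val) : x = y := by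
  cases x; cases y
  congr 1

theorem MCCElt.ext {x y : A.MCCElt C q} (h : x.val = y.val) : x = y := by
  cases x; cases y
  congr 1

theorem MCElt.map_id_of {φ : E →ₐ[K] E} (h : ∀ i x, x ∈ C.deg i → φ x ∈ C.deg i)
    (hd : ∀ x, φ (C.d x) = C.d (φ x)) (hφ : ∀ x, φ x = x) (x : A.MCElt C q) :
    MCElt.map φ h hd x = x := by
  apply MCElt.ext
  change LinearMap.lTensor V φ.toLinearMap x.val = x.val
  rw [show φ.toLinearMap = LinearMap.id from LinearMap.ext hφ, LinearMap.lTensor_id]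
  rfl

theorem MCElt.map_comp_of {φ : E →ₐ[K] E'} (h : ∀ i x, x ∈ C.deg i → φ x ∈ C'.deg i)
    (hd : ∀ x, φ (C.d x) = C'.d (φ x))
    {ψ : E' →ₐ[K] E''} (h' : ∀ i x, x ∈ C'.deg i → ψ x ∈ C''.deg i)
    (hd' : ∀ x, ψ (C'.d x) = C''.d (ψ x))
    {χ : E →ₐ[K] E''} (h'' : ∀ i x, x ∈ C.deg i → χ x ∈ C''.deg i)
    (hd'' : ∀ x, χ (C.d x) = C''.d (χ x)) (hφ : ∀ x, χ x = ψ (φ x)) (x : A.MCElt C q) :
    MCElt.map χ h'' hd'' x = MCElt.map ψ h' hd' (MCElt.map φ h hd x) := by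
  apply MCElt.ext
  change LinearMap.lTensor V χ.toLinearMap x.val =
    LinearMap.lTensor V ψ.toLinearMap (LinearMap.lTensor V φ.toLinearMap x.val)
  rw [show χ.toLinearMap = ψ.toLinearMap ∘ₗ φ.toLinearMap from LinearMap.ext hφ,
    LinearMap.lTensor_comp]
  rfl

theorem MCCElt.map_id_of {φ : E →ₐ[K] E} (h : ∀ i x, x ∈ C.deg i → φ x ∈ C.deg i)
    (hd : ∀ x, φ (C.d x) = C.d (φ x)) (hφ : ∀ x, φ x = x) (x : A.MCCElt C q) :
    MCCElt.map φ h hd x = x := by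
  apply MCCElt.ext
  change Compl.map φ.toLinearMap x.val = x.val
  rw [Compl.map_congr (g' := LinearMap.id) hφ, Compl.map_id]

theorem MCCElt.map_comp_of {φ : E →ₐ[K] E'} (h : ∀ i x, x ∈ C.deg i → φ x ∈ C'.deg i)
    (hd : ∀ x, φ (C.d x) = C'.d (φ x))
    {ψ : E' →ₐ[K] E''} (h' : ∀ i x, x ∈ C'.deg i → ψ x ∈ C''.deg i)
    (hd' : ∀ x, ψ (C'.d x) = C''.d (ψ x))
    {χ : E →ₐ[K] E''} (h'' : ∀ i x, x ∈ C.deg i → χ x ∈ C''.deg i)
    (hd'' : ∀ x, χ (C.d x) = C''.d (χ x)) (hφ : ∀ x, χ x = ψ (φ x)) (x : A.MCCElt C q) :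
    MCCElt.map χ h'' hd'' x = MCCElt.map ψ h' hd' (MCCElt.map φ h hd x) := by
  apply MCCElt.ext
  change Compl.map χ.toLinearMap x.val =
    Compl.map ψ.toLinearMap (Compl.map φ.toLinearMap x.val)
  rw [Compl.map_map]
  exact Compl.map_congr hφ x.val

end Pool.Agent.Helper4.MCX.AInf
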