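import Pool.Agent.Helper4.MCX.Sets
import Pool.Agent.Helper4.MCB.Contraction

/-!
Isomorphisms of simplicial dg algebras induce isomorphisms of Maurer–Cartan simplicial sets.
-/

open scoped TensorProduct
open CategoryTheory Opposite

universe u

namespace Pool.Agent.Helper4.MCX

open MCB

variable {K : Type u} [Field K]

section

variable {E E' : SimplexCategory → Type u} [∀ n, Ring (E n)] [∀ n, Algebra K (E n)]
  [∀ n, Ring (E' n)] [∀ n, Algebra K (E' n)]

/-- An isomorphism of simplicial dg algebras. -/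
structure SDG.Eqv (C : SDG K E) (C' : SDG K E') where
  /-- the algebra isomorphisms -/
  e : ∀ n, E n ≃ₐ[K] E' n
  e_mem : ∀ n i x, x ∈ (C.dg n).deg i → e n x ∈ (C'.dg n).deg i
  e_d : ∀ n x, e n ((C.dg n).d x) = (C'.dg n).d (e n x)
  e_map : ∀ {m n : SimplexCategory} (a : m ⟶ n) x, e m (C.map a x) = C'.map a (e n x)

/-- the inverse -/
def SDG.Eqv.symm {C : SDG K E} {C' : SDG K E'} (e : C.Eqv C') : C'.Eqv C where
  e n := (e.e n).symm
  e_mem n i y hy := by
    have h := map_prj (C.dg n).internal (C'.dg n).internal id Function.injective_id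
      (e.e n).toLinearMap (e.e_mem n) i ((e.e n).symm y)
    change e.e n (prj _ i ((e.e n).symm y)) = prj _ i (e.e n ((e.e n).symm y)) at h
    rw [AlgEquiv.apply_symm_apply, prj_of_mem _ hy] at h
    rw [← h, AlgEquiv.symm_apply_apply]
    exact prj_mem _ i _
  e_d n y := by
    apply (e.e n).injective
    rw [AlgEquiv.apply_symm_apply, e.e_d, AlgEquiv.apply_symm_apply]
  e_map {m n} a y := by
    apply (e.e m).injective
    rw [AlgEquiv.apply_symm_apply, e.e_map, AlgEquiv.apply_symm_apply]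

end

namespace AInf

variable {V : Type u} [AddCommGroup V] [Module K V] (A : AInf K V)
  (q : ∀ k : ℕ, MultilinearMap K (fun _ : Fin k => V) V)
  {E E' : SimplexCategory → Type u} [∀ n, Ring (E n)] [∀ n, Algebra K (E n)]
  [∀ n, Ring (E' n)] [∀ n, Algebra K (E' n)] {C : SDG K E} {C' : SDG K E'}

/-- the induced map of simplicial sets -/
noncomputable def MC.mapC (e : C.Eqv C') : A.MC C q ⟶ A.MC C' q where
  app n := ↾(MCElt.map ((e.e n.unop : E n.unop →ₐ[K] E' n.unop)) (e.e_mem _) (e.e_d _))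
  naturality n m θ := by
    ext x
    have h1 := MCElt.map_comp_of (A := A) (q := q)
      (φ := C.map θ.unop) (C.map_mem _) (C.map_d _)
      (ψ := (e.e m.unop : E m.unop →ₐ[K] E' m.unop)) (e.e_mem _) (e.e_d _)
      (χ := (e.e m.unop : E m.unop →ₐ[K] E' m.unop).comp (C.map θ.unop))
      (fun i x hx => e.e_mem _ i _ (C.map_mem _ i x hx)) (fun x => by
        change e.e _ (C.map _ _) = _
        rw [C.map_d, e.e_d]; rfl) (fun _ => rfl) x
    have h2 := MCElt.map_comp_of (A := A) (q := q)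
      (φ := (e.e n.unop : E n.unop →ₐ[K] E' n.unop)) (e.e_mem _) (e.e_d _)
      (ψ := C'.map θ.unop) (C'.map_mem _) (C'.map_d _)
      (χ := (e.e m.unop : E m.unop →ₐ[K] E' m.unop).comp (C.map θ.unop))
      (fun i x hx => e.e_mem _ i _ (C.map_mem _ i x hx)) (fun x => by
        change e.e _ (C.map _ _) = _
        rw [C.map_d, e.e_d]; rfl) (fun x => e.e_map _ x) x
    exact h1.symm.trans h2

/-- the induced isomorphism of simplicial sets -/
noncomputable def MC.iso (e : C.Eqv C') : A.MC C q ≅ A.MC C' q where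
  hom := MC.mapC A q e
  inv := MC.mapC A q e.symm
  hom_inv_id := by
    ext n x
    have h1 := MCElt.map_comp_of (A := A) (q := q)
      (φ := (e.e n.unop : E n.unop →ₐ[K] E' n.unop)) (e.e_mem _) (e.e_d _)
      (ψ := (e.symm.e n.unop : E' n.unop →ₐ[K] E n.unop)) (e.symm.e_mem _) (e.symm.e_d _)
      (χ := AlgHom.id K _) (fun _ _ h => h) (fun _ => rfl)
      (fun x => ((e.e n.unop).symm_apply_apply x).symm) x
    exact h1.symm.trans (MCElt.map_id_of _ _ (fun _ => rfl) x)
  inv_hom_id := by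
    ext n x
    have h1 := MCElt.map_comp_of (A := A) (q := q)
      (φ := (e.symm.e n.unop : E' n.unop →ₐ[K] E n.unop)) (e.symm.e_mem _) (e.symm.e_d _)
      (ψ := (e.e n.unop : E n.unop →ₐ[K] E' n.unop)) (e.e_mem _) (e.e_d _)
      (χ := AlgHom.id K _) (fun _ _ h => h) (fun _ => rfl)
      (fun x => ((e.e n.unop).apply_symm_apply x).symm) x
    exact h1.symm.trans (MCElt.map_id_of _ _ (fun _ => rfl) x)

/-- the induced map of simplicial sets -/
noncomputable def MCC.mapC (e : C.Eqv C') : A.MCC C q ⟶ A.MCC C' q where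
  app n := ↾(MCCElt.map ((e.e n.unop : E n.unop →ₐ[K] E' n.unop)) (e.e_mem _) (e.e_d _))
  naturality n m θ := by
    ext x
    have h1 := MCCElt.map_comp_of (A := A) (q := q)
      (φ := C.map θ.unop) (C.map_mem _) (C.map_d _)
      (ψ := (e.e m.unop : E m.unop →ₐ[K] E' m.unop)) (e.e_mem _) (e.e_d _)
      (χ := (e.e m.unop : E m.unop →ₐ[K] E' m.unop).comp (C.map θ.unop))
      (fun i x hx => e.e_mem _ i _ (C.map_mem _ i x hx)) (fun x => by
        change e.e _ (C.map _ _) = _
        rw [C.map_d, e.e_d]; rfl) (fun _ => rfl) x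
    have h2 := MCCElt.map_comp_of (A := A) (q := q)
      (φ := (e.e n.unop : E n.unop →ₐ[K] E' n.unop)) (e.e_mem _) (e.e_d _)
      (ψ := C'.map θ.unop) (C'.map_mem _) (C'.map_d _)
      (χ := (e.e m.unop : E m.unop →ₐ[K] E' m.unop).comp (C.map θ.unop))
      (fun i x hx => e.e_mem _ i _ (C.map_mem _ i x hx)) (fun x => by
        change e.e _ (C.map _ _) = _
        rw [C.map_d, e.e_d]; rfl) (fun x => e.e_map _ x) x
    exact h1.symm.trans h2

/-- the induced isomorphism of simplicial sets -/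
noncomputable def MCC.iso (e : C.Eqv C') : A.MCC C q ≅ A.MCC C' q where
  hom := MCC.mapC A q e
  inv := MCC.mapC A q e.symm
  hom_inv_id := by
    ext n x
    have h1 := MCCElt.map_comp_of (A := A) (q := q)
      (φ := (e.e n.unop : E n.unop →ₐ[K] E' n.unop)) (e.e_mem _) (e.e_d _)
      (ψ := (e.symm.e n.unop : E' n.unop →ₐ[K] E n.unop)) (e.symm.e_mem _) (e.symm.e_d _)
      (χ := AlgHom.id K _) (fun _ _ h => h) (fun _ => rfl)
      (fun x => ((e.e n.unop).symm_apply_apply x).symm) x
    exact h1.symm.trans (MCCElt.map_id_of _ _ (fun _ => rfl) x)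
  inv_hom_id := by
    ext n x
    have h1 := MCCElt.map_comp_of (A := A) (q := q)
      (φ := (e.symm.e n.unop : E' n.unop →ₐ[K] E n.unop)) (e.symm.e_mem _) (e.symm.e_d _)
      (ψ := (e.e n.unop : E n.unop →ₐ[K] E' n.unop)) (e.e_mem _) (e.e_d _)
      (χ := AlgHom.id K _) (fun _ _ h => h) (fun _ => rfl)
      (fun x => ((e.e n.unop).apply_symm_apply x).symm) x
    exact h1.symm.trans (MCCElt.map_id_of _ _ (fun _ => rfl) x)

end AInf

end Pool.Agent.Helper4.MCX
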