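import Pool.Agent.Helper4.MCX.Old

/-!
Auxiliary results: existence and uniqueness of the extensions of operations.
-/

open scoped TensorProduct
open CategoryTheory

universe u

namespace Pool.Agent.Helper4.MCX

open MCA MCB

section General

variable {K : Type u} [Field K] {W W' : Type*} [AddCommGroup W] [Module K W]
  [AddCommGroup W'] [Module K W']

theorem multi_ext {k : ℕ} {Φ Ψ : MultilinearMap K (fun _ : Fin k => W) W'} {S : Set W}
    (hS : Submodule.span K S = ⊤)
    (h : ∀ x : Fin k → W, (∀ l, x l ∈ S) → Φ x = Ψ x) : Φ = Ψ := by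
  ext y
  rw [← sub_eq_zero]
  have hy : y = fun l : Fin k => (fun l : ℕ => if h : l < k then y ⟨l, h⟩ else 0) l := by
    funext l
    simp
  rw [hy]
  have key := reduce (K := K) (fun x => Φ (fun l => x l) - Ψ (fun l => x l)) k (fun _ => S) ⊥ ?_ ?_
    (fun l : ℕ => if h : l < k then y ⟨l, h⟩ else 0) (fun _ _ => by rw [hS]; trivial)
  · simpa using key
  · intro m hm x
    exact Lin.sub (Lin_sq Φ hm x) (Lin_sq Ψ hm x)
  · intro x hx
    rw [Submodule.mem_bot, sub_eq_zero]
    exact h _ (fun l => hx l l.isLt)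

end General

variable {K V : Type u} [Field K] [AddCommGroup V] [Module K V]
  {E : Type u} [Ring E] [Algebra K E]

/-- homogeneous pure tensors -/
def AInf.Hom (A : AInf K V) (C : DG K E) : Set (V ⊗[K] E) :=
  {x | ∃ (i : ℤ) (j : ℕ) (v : V) (e : E), v ∈ A.gr i ∧ e ∈ C.deg j ∧ x = v ⊗ₜ[K] e}

theorem AInf.span_Hom (A : AInf K V) (C : DG K E) : Submodule.span K (A.Hom C) = ⊤ := by
  rw [eq_top_iff]
  rintro x -
  induction x using TensorProduct.induction_on with
  | zero => exact Submodule.zero_mem _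
  | add x y hx hy => exact Submodule.add_mem _ hx hy
  | tmul v e =>
    have he : e ∈ ⨆ j, C.deg j := by rw [C.internal.submodule_iSup_eq_top]; trivial
    have hv : v ∈ ⨆ i, A.gr i := by rw [A.internal.submodule_iSup_eq_top]; trivial
    induction he using Submodule.iSup_induction' with
    | zero => rw [TensorProduct.tmul_zero]; exact Submodule.zero_mem _
    | add x y _ _ hx hy => rw [TensorProduct.tmul_add]; exact Submodule.add_mem _ hx hy
    | mem j e he =>
      induction hv using Submodule.iSup_induction' with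
      | zero => rw [TensorProduct.zero_tmul]; exact Submodule.zero_mem _
      | add x y _ _ hx hy => rw [TensorProduct.add_tmul]; exact Submodule.add_mem _ hx hy
      | mem i v hv => exact Submodule.subset_span ⟨i, j, v, e, hv, he, rfl⟩

theorem choose_hom {A : AInf K V} {C : DG K E} {k : ℕ} {x : Fin k → V ⊗[K] E}
    (hx : ∀ l, x l ∈ A.Hom C) : ∃ (i : Fin k → ℤ) (j : Fin k → ℕ) (v : Fin k → V) (e : Fin k → E),
      (∀ l, v l ∈ A.gr (i l)) ∧ (∀ l, e l ∈ C.deg (j l)) ∧ x = fun l => v l ⊗ₜ[K] e l := by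
  choose i j v e hv he hx using hx
  exact ⟨i, j, v, e, hv, he, funext hx⟩

theorem kSign_eq' {k : ℕ} (j : Fin k → ℕ) (i : Fin k → ℤ) :
    kSign K (fun l => decide (Odd (j l))) (fun l => decide (Odd (i l))) =
      sgn K (∑ a, ∑ b, if a < b then (j a : ℤ) * i b else 0) := by
  rw [sgn_sum, kSign]
  refine Finset.prod_congr rfl (fun a _ => ?_)
  rw [sgn_sum]
  refine Finset.prod_congr rfl (fun b _ => ?_)
  by_cases h : a < b
  · rw [if_pos h]
    unfold sgn
    by_cases h1 : Odd (j a)
    · by_cases h2 : Odd (i b)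
      · rw [if_pos ⟨h, by simpa using h1, by simpa using h2⟩, if_neg]
        rw [Int.not_even_iff_odd]
        exact ((Int.odd_coe_nat _).2 h1).mul h2
      · rw [if_neg (by simp [h2]), if_pos]
        exact (Int.not_odd_iff_even.1 h2).mul_left _
    · rw [if_neg (by simp [h1]), if_pos]
      exact ((Int.even_coe_nat _).2 (Nat.not_odd_iff_even.1 h1)).mul_right _
  · rw [if_neg h, if_neg (fun h' => h h'.1), sgn_zero]

theorem permSign_eq' {k : ℕ} (σ : Equiv.Perm (Fin k)) (i : Fin k → ℤ) :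
    permSign K σ (fun l => decide (Odd (i l))) =
      sgn K (∑ a, ∑ b, if a < b ∧ σ b < σ a then i (σ a) * i (σ b) else 0) := by
  rw [sgn_sum, permSign]
  refine Finset.prod_congr rfl (fun a _ => ?_)
  rw [sgn_sum]
  refine Finset.prod_congr rfl (fun b _ => ?_)
  by_cases h : a < b ∧ σ b < σ a
  · rw [if_pos h]
    unfold sgn
    by_cases h1 : Odd (i (σ a))
    · by_cases h2 : Odd (i (σ b))
      · rw [if_pos ⟨h.1, h.2, by simpa using h1, by simpa using h2⟩, if_neg]
        rw [Int.not_even_iff_odd]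
        exact h1.mul h2
      · rw [if_neg (by simp [h2]), if_pos]
        exact (Int.not_odd_iff_even.1 h2).mul_left _
    · rw [if_neg (by simp [h1]), if_pos]
      exact (Int.not_odd_iff_even.1 h1).mul_right _
  · rw [if_neg h, if_neg (fun h' => h ⟨h'.1, h'.2.1⟩), sgn_zero]

/-- The defining property of the extension of `q` to `A ⊗ E`. -/
def IsExt (A : AInf K V) (C : DG K E) {k : ℕ} (q : MultilinearMap K (fun _ : Fin k => V) V)
    (Φ : MultilinearMap K (fun _ : Fin k => V ⊗[K] E) (V ⊗[K] E)) : Prop :=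
  ∀ (i : Fin k → ℤ) (j : Fin k → ℕ) (a : Fin k → V) (φ : Fin k → E),
    (∀ l, a l ∈ A.gr (i l)) → (∀ l, φ l ∈ C.deg (j l)) →
      Φ (fun l => a l ⊗ₜ[K] φ l) =
        (∑ l, ∑ m, if l < m then (j l : ℤ) * i m else 0).negOnePow •
          (q a ⊗ₜ[K] (List.ofFn φ).prod)

theorem IsExt.unique {A : AInf K V} {C : DG K E} {k : ℕ}
    {q : MultilinearMap K (fun _ : Fin k => V) V}
    {Φ Ψ : MultilinearMap K (fun _ : Fin k => V ⊗[K] E) (V ⊗[K] E)}
    (h : IsExt A C q Φ) (h' : IsExt A C q Ψ) : Φ = Ψ := by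
  apply multi_ext (A.span_Hom C)
  intro x hx
  obtain ⟨i, j, v, e, hv, he, rfl⟩ := choose_hom hx
  rw [h i j v e hv he, h' i j v e hv he]

theorem isExt_old (A : AInf K V) {E : SimplexCategory → Type u} [∀ n, Ring (E n)]
    [∀ n, Algebra K (E n)] (C : SDG K E) (n : SimplexCategory) {k : ℕ}
    (q : MultilinearMap K (fun _ : Fin k => V) V) :
    IsExt A (C.dg n) q (A.old.koszulExt C.old n q) := by
  intro i j v e hv he
  rw [negOnePow_smul (K := K), ← kSign_eq']
  exact A.old.koszulExt_tmul (C := C.old) (n := n) q i j v e hv he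

theorem exists_ext' (A : AInf K V) (C : DG K E) {k : ℕ}
    (q : MultilinearMap K (fun _ : Fin k => V) V) :
    ∃! Φ : MultilinearMap K (fun _ : Fin k => V ⊗[K] E) (V ⊗[K] E), IsExt A C q Φ :=
  ⟨A.old.koszulExt C.const.old (SimplexCategory.mk 0) q,
    isExt_old A C.const (SimplexCategory.mk 0) q, fun _ h => h.unique
      (isExt_old A C.const (SimplexCategory.mk 0) q)⟩

/-- The defining property of `id ⊗ d`. -/
def IsDif (A : AInf K V) (C : DG K E) (D : V ⊗[K] E →ₗ[K] V ⊗[K] E) : Prop :=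
  ∀ (i : ℤ) (a : V) (φ : E), a ∈ A.gr i → D (a ⊗ₜ[K] φ) = i.negOnePow • (a ⊗ₜ[K] C.d φ)

theorem isDif_old (A : AInf K V) (C : DG K E) :
    IsDif A C (TensorProduct.map (parity A.internal) C.d) := by
  intro i a φ ha
  have h : parity A.internal a = sgn K i • a := by
    rw [parity, assemble_of_mem _ _ i a ha]; rfl
  rw [negOnePow_smul (K := K), TensorProduct.map_tmul, h, TensorProduct.smul_tmul']

theorem IsDif.unique {A : AInf K V} {C : DG K E} {D D' : V ⊗[K] E →ₗ[K] V ⊗[K] E}
    (h : IsDif A C D) (h' : IsDif A C D') : D = D' := by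
  apply LinearMap.ext_on (A.span_Hom C)
  rintro x ⟨i, j, v, e, hv, he, rfl⟩
  rw [h i v e hv, h' i v e hv]

/-- The defining property of `ℓ_k`. -/
def IsEll (A : AInf K V) {k : ℕ} (L : MultilinearMap K (fun _ : Fin k => V) V) : Prop :=
  ∀ (i : Fin k → ℤ) (x : Fin k → V), (∀ l, x l ∈ A.gr (i l)) →
    L x = ∑ σ : Equiv.Perm (Fin k),
      (∑ l, ∑ m, if l < m ∧ σ m < σ l then i (σ l) * i (σ m) else 0).negOnePow •
        A.Q k (fun l => x (σ l))

theorem isEll_old (A : AInf K V) (k : ℕ) : IsEll A (A.old.ell k) := by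
  intro i x hx
  refine (A.old.ell_apply k i x hx).trans (Finset.sum_congr rfl (fun σ _ => ?_))
  rw [negOnePow_smul (K := K), ← permSign_eq']
  rfl

theorem IsEll.unique {A : AInf K V} {k : ℕ} {L L' : MultilinearMap K (fun _ : Fin k => V) V}
    (h : IsEll A L) (h' : IsEll A L') : L = L' := by
  apply multi_ext A.span_gr
  intro x hx
  choose i hi using hx
  rw [h i x hi, h' i x hi]

end Pool.Agent.Helper4.MCX
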