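import Pool.Agent.Helper4.MCX.Unique

/-!
The main theorem.
-/

open scoped TensorProduct
open CategoryTheory Opposite

universe u

namespace Pool.Agent.Helper4.MCX

open MCA MCB

variable {K V : Type u} [Field K] [CharZero K] [AddCommGroup V] [Module K V] (A : AInf K V)
  {E : SimplexCategory → Type u} [∀ n, Ring (E n)] [∀ n, Algebra K (E n)] {N : SDG K E}
  {val : ∀ n, E n → List (Fin (n.len + 1)) → K}
  {E' : SimplexCategory → Type u} [∀ n, Ring (E' n)] [∀ n, Algebra K (E' n)] {Ω : SDG K E'}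
  {t : ∀ n : SimplexCategory, Fin (n.len + 1) → E' n}

theorem main_equiv (hN : N.IsCochains val) (hΩ : Ω.IsForms t) :
    ∃ (f : A.MCA N ⟶ A.MCL Ω) (g : A.MCL Ω ⟶ A.MCA N),
      Nonempty (SSet.Homotopy (f ≫ g) (𝟙 (A.MCA N))) ∧
      Nonempty (SSet.Homotopy (g ≫ f) (𝟙 (A.MCL Ω))) := by
  have h1 : (MorphismProperty.monomorphisms SSet.{u}).rlp
      (CAInf.MCP.map A.old (piNCo K) ≫ ((A.old.MCPK (ncoDGA K)).hom ≫ inv A.old.MCNK ≫
        (isoN A).inv ≫ (AInf.MC.iso A A.Q (ncEqv hN).symm).hom)) :=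
    CAInf.rlp_comp_iso
      (A.old.fills (piNCo K) (freeCone K) (piNCo_surj K) (nco_contraction K)).rlp _
  have h2 : (MorphismProperty.monomorphisms SSet.{u}).rlp
      (CAInf.MCP.map A.old (piOmega K) ≫ ((A.old.MCPK (omegaDGA K)).hom ≫ (A.old.MCKL).hom ≫
        (isoL A).inv ≫ (AInf.MCC.iso A _ (frEqv hΩ)).hom)) :=
    CAInf.rlp_comp_iso
      (A.old.fills (piOmega K) (freeCone K) (piOmega_surj K) (omega_contraction K)).rlp _
  exact equiv_of_span h1 h2

theorem exists_cochains (K : Type u) [Field K] [CharZero K] :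
    ∃ (E : SimplexCategory → Type u) (_ : ∀ n, Ring (E n)) (_ : ∀ n, Algebra K (E n))
      (N : SDG K E) (val : ∀ n, E n → List (Fin (n.len + 1)) → K), N.IsCochains val :=
  ⟨_, _, _, ncSDG K, _, ncSDG_isCochains⟩

theorem exists_forms (K : Type u) [Field K] [CharZero K] :
    ∃ (E : SimplexCategory → Type u) (_ : ∀ n, Ring (E n)) (_ : ∀ n, Algebra K (E n))
      (Ω : SDG K E) (t : ∀ n : SimplexCategory, Fin (n.len + 1) → E n), Ω.IsForms t :=
  ⟨_, _, _, prSDG K, _, prSDG_isForms⟩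

end Pool.Agent.Helper4.MCX
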