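import Pool.Agent.Helper4.MCX.Basic
import Pool.Agent.Helper4.MCA.Linf

/-!
Comparison of the definitions of `Basic` with bundled ones.
-/

open scoped TensorProduct
open CategoryTheory

universe u

namespace Pool.Agent.Helper4.MCX

open MCA MCB

section Sign

variable {K : Type u} [Field K] {W : Type*} [AddCommGroup W] [Module K W]

theorem negOnePow_smul (i : ℤ) (w : W) : i.negOnePow • w = sgn K i • w := by
  unfold sgn
  by_cases h : Even i
  · rw [Int.negOnePow_even i h, if_pos h, one_smul, one_smul]
  · rw [if_neg h, Int.negOnePow_odd i (Int.not_even_iff_odd.1 h)]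
    simp [Units.smul_def]

theorem sgn_add (i j : ℤ) : sgn K (i + j) = sgn K i * sgn K j := by
  unfold sgn
  by_cases h : Even i <;> by_cases h' : Even j <;> simp [Int.even_add, h, h']

theorem sgn_zero : sgn K 0 = 1 := by simp [sgn]

theorem sgn_sum {ι : Type*} (s : Finset ι) (i : ι → ℤ) :
    sgn K (∑ l ∈ s, i l) = ∏ l ∈ s, sgn K (i l) := by
  classical
  induction s using Finset.induction_on with
  | empty => simp [sgn_zero]
  | insert a s ha ih => rw [Finset.sum_insert ha, Finset.prod_insert ha, sgn_add, ih]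

theorem prod_ite_range {M : Type*} [CommMonoid M] (c : ℕ → M) {r k : ℕ} (h : r ≤ k) :
    ∏ t : Fin k, (if (t : ℕ) < r then c t else 1) = ∏ l ∈ Finset.range r, c l := by
  rw [Fin.prod_univ_eq_prod_range (fun t => if t < r then c t else 1) k,
    ← Finset.prod_filter]
  congr 1
  ext t
  simp only [Finset.mem_filter, Finset.mem_range]
  omega

theorem map_signs {W' : Type*} [AddCommGroup W'] [Module K W'] {k : ℕ}
    (f : MultilinearMap K (fun _ : Fin k => W) W') (c : ℕ → K) (y : ℕ → W) {r : ℕ}
    (h : r ≤ k) :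
    f (fun t => if (t : ℕ) < r then c t • y t else y t) =
      (∏ l ∈ Finset.range r, c l) • f (fun t => y t) := by
  rw [← prod_ite_range c h, ← MultilinearMap.map_smul_univ]
  congr 1
  funext t
  split_ifs <;> simp

end Sign

variable {K V : Type u} [Field K] [AddCommGroup V] [Module K V]

theorem AInf.prj_mem (A : AInf K V) (p : ℕ) (x : V) (hx : x ∈ A.F p) (i : ℤ) :
    prj A.internal i x ∈ A.F p := by
  have := A.F_gr p hx
  clear hx
  induction this using Submodule.iSup_induction' with
  | mem j x hx =>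
    by_cases hij : j = i
    · subst hij; rw [prj_of_mem _ hx.2]; exact hx.1
    · rw [prj_of_mem_ne _ hij hx.2]; exact Submodule.zero_mem _
  | zero => rw [map_zero]; exact Submodule.zero_mem _
  | add x y _ _ hx hy => rw [map_add]; exact Submodule.add_mem _ hx hy

theorem AInf.span_gr (A : AInf K V) : Submodule.span K {x : V | ∃ i, x ∈ A.gr i} = ⊤ := by
  rw [eq_top_iff, ← A.internal.submodule_iSup_eq_top, iSup_le_iff]
  intro i x hx
  exact Submodule.subset_span ⟨i, hx⟩

theorem AInf.rel_hom (A : AInf K V) (n : ℕ) (i : ℕ → ℤ) (x : ℕ → V)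
    (hx : ∀ l, x l ∈ A.gr (i l)) :
    ∑ s ∈ Finset.range (n + 1), ∑ r ∈ Finset.range (n - s + 1),
      A.Q (n - s + 1) (fun t => ins (parity A.internal) (MCA.sq (A.Q s)) r s x t) = 0 := by
  rw [← A.Q_rel n i x hx]
  refine Finset.sum_congr rfl (fun s hs => Finset.sum_congr rfl (fun r hr => ?_))
  have hr' := Finset.mem_range.1 hr
  rw [negOnePow_smul (K := K), sgn_sum, ← map_signs (A.Q (n - s + 1)) (fun l => sgn K (i l))
    (fun t => if t < r then x t else if t = r then A.Q s (fun j => x (r + j)) else x (t + s - 1))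
    (by omega)]
  congr 1
  funext t
  unfold ins
  by_cases h : (t : ℕ) < r
  · simp only [if_pos h]
    rw [parity, assemble_of_mem _ _ (i t) _ (hx t)]; rfl
  · simp only [if_neg h]; rfl

theorem AInf.rel_old (A : AInf K V) (n : ℕ) (x : ℕ → V) :
    ∑ s ∈ Finset.range (n + 1), ∑ r ∈ Finset.range (n - s + 1),
      A.Q (n - s + 1) (fun t => ins (parity A.internal) (MCA.sq (A.Q s)) r s x t) = 0 := by
  have key := reduce (K := K) (fun x => ∑ s ∈ Finset.range (n + 1), ∑ r ∈ Finset.range (n - s + 1),
      A.Q (n - s + 1) (fun t => ins (parity A.internal) (MCA.sq (A.Q s)) r s x t)) n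
      (fun _ => {x : V | ∃ i, x ∈ A.gr i}) ⊥ ?_ ?_ x
      (fun _ _ => by rw [A.span_gr]; trivial)
  · simpa using key
  · intro m hm x
    refine Lin.sum _ (fun s hs => Lin.sum _ (fun r hr => ?_))
    have hs' := Finset.mem_range.1 hs
    have hr' := Finset.mem_range.1 hr
    obtain ⟨m', L, hm', hL⟩ := CAInf.ins_lin (parity A.internal) (A.Q s) r m n (by omega)
      (by omega) hm x
    exact Lin.pre (Φ := MCA.sq (A.Q (n - s + 1))) (Lin_sq _ hm' _) hL
  · intro x hx
    rw [Submodule.mem_bot]
    have h : ∀ l, ∃ (i : ℤ) (y : V), y ∈ A.gr i ∧ (l < n → x l = y) := by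
      intro l
      by_cases hl : l < n
      · obtain ⟨i, hi⟩ := hx l hl
        exact ⟨i, x l, hi, fun _ => rfl⟩
      · exact ⟨0, 0, Submodule.zero_mem _, fun h' => absurd h' hl⟩
    choose i y hy hxy using h
    rw [← A.rel_hom n i y hy]
    refine Finset.sum_congr rfl (fun s hs => Finset.sum_congr rfl (fun r hr => ?_))
    have hs' := Finset.mem_range.1 hs
    have hr' := Finset.mem_range.1 hr
    congr 1
    funext t
    unfold ins
    split_ifs with h1 h2
    · rw [hxy t (by omega)]
    · unfold MCA.sq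
      congr 1
      funext j
      exact hxy _ (by omega)
    · exact hxy _ (by omega)

/-- The bundled algebra. -/
def AInf.old (A : AInf K V) : CAInf K where
  V := V
  gr := A.gr
  internal := A.internal
  F := A.F
  F_anti := A.F_anti
  F_one := A.F_one
  F_prj := A.prj_mem
  F_sep := fun x hx => by
    have : x ∈ ⨅ p, A.F p := by rwa [Submodule.mem_iInf]
    rwa [A.F_sep] at this
  F_complete := A.F_complete
  Q := A.Q
  Q_deg := A.Q_deg
  Q_filt := A.Q_filt
  rel := A.rel_old

/-- The bundled simplicial dg algebra. -/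
def SDG.old {E : SimplexCategory → Type u} [∀ n, Ring (E n)] [∀ n, Algebra K (E n)]
    (C : SDG K E) : SDGA K where
  E := E
  deg n := (C.dg n).deg
  internal n := (C.dg n).internal
  one_mem n := (C.dg n).one_mem
  mul_mem n := (C.dg n).mul_mem
  d n := (C.dg n).d
  d_mem n := (C.dg n).d_mem
  d_d n := (C.dg n).d_d
  leibniz n := (C.dg n).leibniz
  map a := C.map a
  map_id := C.map_id
  map_comp a b x := C.map_comp a b x
  map_mem a := C.map_mem a
  map_d a := C.map_d a

/-- The constant simplicial dg algebra. -/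
def DG.const {E : Type u} [Ring E] [Algebra K E] (C : DG K E) : SDG K (fun _ => E) where
  dg _ := C
  map _ := AlgHom.id K E
  map_id _ _ := rfl
  map_comp _ _ _ := rfl
  map_mem _ _ _ hx := hx
  map_d _ _ := rfl

end Pool.Agent.Helper4.MCX
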