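import Pool.Agent.Helper4.MCX.ExtAux

/-!
# Maurer–Cartan elements of `A ⊗ E` and of its completion
-/

open scoped TensorProduct
open CategoryTheory

universe u

namespace Pool.Agent.Helper4.MCX.AInf

variable {K V E E' : Type u} [Field K] [AddCommGroup V] [Module K V] [Ring E] [Algebra K E]
  [Ring E'] [Algebra K E']

/-- A multilinear operation `q` on `A` has exactly one multilinear extension to `A ⊗ E` with
`(a_1 ⊗ φ_1, …, a_k ⊗ φ_k) ↦ ± q (a_1, …, a_k) ⊗ φ_1 ⋯ φ_k`, where `±` is the Koszul sign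
`(-1)^{∑_{l < m} |φ_l| |a_m|}`. -/
theorem exists_ext (A : AInf K V) (C : DG K E) {k : ℕ}
    (q : MultilinearMap K (fun _ : Fin k => V) V) :
    ∃! Φ : MultilinearMap K (fun _ : Fin k => V ⊗[K] E) (V ⊗[K] E),
      ∀ (i : Fin k → ℤ) (j : Fin k → ℕ) (a : Fin k → V) (φ : Fin k → E),
        (∀ l, a l ∈ A.gr (i l)) → (∀ l, φ l ∈ C.deg (j l)) →
          Φ (fun l => a l ⊗ₜ[K] φ l) =
            (∑ l, ∑ m, if l < m then (j l : ℤ) * i m else 0).negOnePow •
              (q a ⊗ₜ[K] (List.ofFn φ).prod) :=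
  exists_ext' A C q

/-- The extension of an operation `q` on `A` to `A ⊗ E`, see `exists_ext`. -/
noncomputable def ext (A : AInf K V) (C : DG K E) {k : ℕ}
    (q : MultilinearMap K (fun _ : Fin k => V) V) :
    MultilinearMap K (fun _ : Fin k => V ⊗[K] E) (V ⊗[K] E) :=
  (A.exists_ext C q).exists.choose

/-- There is exactly one linear map `id ⊗ d` on `A ⊗ E` with
`a ⊗ φ ↦ (-1)^{|a|} a ⊗ d φ`. -/
theorem exists_dif (A : AInf K V) (C : DG K E) :
    ∃! D : V ⊗[K] E →ₗ[K] V ⊗[K] E, ∀ (i : ℤ) (a : V) (φ : E), a ∈ A.gr i →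
      D (a ⊗ₜ[K] φ) = i.negOnePow • (a ⊗ₜ[K] C.d φ) :=
  ⟨_, isDif_old A C, fun _ h => IsDif.unique h (isDif_old A C)⟩

/-- The map `id ⊗ d` on `A ⊗ E`, see `exists_dif`. -/
noncomputable def dif (A : AInf K V) (C : DG K E) : V ⊗[K] E →ₗ[K] V ⊗[K] E :=
  (A.exists_dif C).exists.choose

/-- The partial sum `(id ⊗ d) x + ∑_{k < N} q_k (x, …, x)` in `A ⊗ E`, for a family of operations
`q_k` on `A` (extended to `A ⊗ E`). -/
noncomputable def curv (A : AInf K V) (C : DG K E)
    (q : ∀ k : ℕ, MultilinearMap K (fun _ : Fin k => V) V) (N : ℕ) (x : V ⊗[K] E) : V ⊗[K] E :=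
  A.dif C x + ∑ k ∈ Finset.range N, A.ext C (q k) (fun _ => x)

/-- `x` is an element of degree `0` of `A ⊗ E` with `(id ⊗ d) x + ∑_k q_k (x, …, x) = 0`: the
partial sum up to `p` lies in the `p`-th step of the filtration, for all `p`. (The term
`q_k (x, …, x)` lies in the `k`-th step.) -/
def IsMC (A : AInf K V) (C : DG K E) (q : ∀ k : ℕ, MultilinearMap K (fun _ : Fin k => V) V)
    (x : V ⊗[K] E) : Prop :=
  x ∈ A.Zero C ∧ ∀ p, A.curv C q p x ∈ A.Fil E p

/-- The Maurer–Cartan elements of `A ⊗ E` for the operations `q_k`, see `IsMC`. -/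
structure MCElt (A : AInf K V) (C : DG K E)
    (q : ∀ k : ℕ, MultilinearMap K (fun _ : Fin k => V) V) : Type u where
  /-- the underlying element of `A ⊗ E` -/
  val : V ⊗[K] E
  isMC : A.IsMC C q val

/-- There is exactly one multilinear map `ℓ_k` on `A` with
`ℓ_k (x_1, …, x_k) = ∑_σ ε(σ) Q_k (x_{σ(1)}, …, x_{σ(k)})` for homogeneous `x_l`, where `ε(σ)` is
the Koszul sign of the permutation `σ` of `x_1, …, x_k`. -/
theorem exists_ell (A : AInf K V) (k : ℕ) :
    ∃! L : MultilinearMap K (fun _ : Fin k => V) V,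
      ∀ (i : Fin k → ℤ) (x : Fin k → V), (∀ l, x l ∈ A.gr (i l)) →
        L x = ∑ σ : Equiv.Perm (Fin k),
          (∑ l, ∑ m, if l < m ∧ σ m < σ l then i (σ l) * i (σ m) else 0).negOnePow •
            A.Q k (fun l => x (σ l)) :=
  ⟨_, isEll_old A k, fun _ h => IsEll.unique h (isEll_old A k)⟩

/-- The operation `ℓ_k` of the symmetrization `L_A`, see `exists_ell`. -/
noncomputable def ell (A : AInf K V) (k : ℕ) : MultilinearMap K (fun _ : Fin k => V) V :=
  (A.exists_ell k).exists.choose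

/-! ### The completed tensor product -/

/-- The completed tensor product: the inverse limit of the quotients `(A ⊗ E) / F^p (A ⊗ E)`. -/
structure Compl (A : AInf K V) (E : Type u) [Ring E] [Algebra K E] : Type u where
  /-- the components -/
  val : ∀ p : ℕ, (V ⊗[K] E) ⧸ A.Fil E p
  compat : ∀ p, Submodule.factor (A.Fil_anti E (Nat.le_succ p)) (val (p + 1)) = val p

/-- `x` is an element of degree `0` of the completed tensor product with
`(id ⊗ d) x + ∑_k q_k (x, …, x) = 0`: for all `p`, the component of `x` in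
`(A ⊗ E) / F^p (A ⊗ E)` has a representative `y` of degree `0`, for which the partial sum up to `p`
lies in `F^p (A ⊗ E)`. -/
def IsMCC (A : AInf K V) (C : DG K E) (q : ∀ k : ℕ, MultilinearMap K (fun _ : Fin k => V) V)
    (x : A.Compl E) : Prop :=
  ∀ p, ∃ y ∈ A.Zero C, Submodule.Quotient.mk y = x.val p ∧ A.curv C q p y ∈ A.Fil E p

/-- The Maurer–Cartan elements of the completed tensor product of `A` and `E` for the operations
`q_k`, see `IsMCC`. -/
structure MCCElt (A : AInf K V) (C : DG K E)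
    (q : ∀ k : ℕ, MultilinearMap K (fun _ : Fin k => V) V) : Type u where
  /-- the underlying element of the completed tensor product -/
  val : A.Compl E
  isMCC : A.IsMCC C q val

theorem Fil_map (A : AInf K V) (g : E →ₗ[K] E') (p : ℕ) :
    A.Fil E p ≤ (A.Fil E' p).comap (LinearMap.lTensor V g) := by
  rintro _ ⟨x, rfl⟩
  refine ⟨LinearMap.lTensor (A.F p) g x, ?_⟩
  rw [← LinearMap.comp_apply, ← LinearMap.comp_apply, LinearMap.lTensor_comp_rTensor,
    LinearMap.rTensor_comp_lTensor]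

/-- The map `id ⊗ g` between completed tensor products. -/
noncomputable def Compl.map {A : AInf K V} (g : E →ₗ[K] E') (x : A.Compl E) : A.Compl E' where
  val p := Submodule.mapQ _ _ (LinearMap.lTensor V g) (A.Fil_map g p) (x.val p)
  compat := by
    intro p
    have hx := x.compat p
    obtain ⟨y, hy⟩ := Submodule.Quotient.mk_surjective _ (x.val (p + 1))
    rw [← hx, ← hy]
    rfl

end Pool.Agent.Helper4.MCX.AInf
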