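import Pool.Agent.Helper4.MCX.EltAux

/-!
# Maurer–Cartan simplicial sets with coefficients in a simplicial dg algebra
-/

open scoped TensorProduct
open CategoryTheory Opposite

universe u

namespace Pool.Agent.Helper4.MCX.AInf

variable {K V : Type u} [Field K] [AddCommGroup V] [Module K V] {E : SimplexCategory → Type u}
  [∀ n, Ring (E n)] [∀ n, Algebra K (E n)]

/-- The simplicial set whose `n`-simplices are the elements `x` of degree `0` of `A ⊗ E n` with
`(id ⊗ d) x + ∑_k q_k (x, …, x) = 0`. -/
noncomputable def MC (A : AInf K V) (C : SDG K E)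
    (q : ∀ k : ℕ, MultilinearMap K (fun _ : Fin k => V) V) : SSet.{u} where
  obj n := A.MCElt (C.dg n.unop) q
  map θ := ↾(MCElt.map (C.map θ.unop) (C.map_mem _) (C.map_d _))
  map_id n := by
    ext x
    exact MCElt.map_id_of (C.map_mem _) (C.map_d _) (C.map_id _) x
  map_comp a b := by
    ext x
    exact MCElt.map_comp_of (C.map_mem _) (C.map_d _) (C.map_mem _) (C.map_d _) (C.map_mem _)
      (C.map_d _) (C.map_comp _ _) x

/-- The simplicial set whose `n`-simplices are the elements `x` of degree `0` of the completed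
tensor product of `A` and `E n` with `(id ⊗ d) x + ∑_k q_k (x, …, x) = 0`. -/
noncomputable def MCC (A : AInf K V) (C : SDG K E)
    (q : ∀ k : ℕ, MultilinearMap K (fun _ : Fin k => V) V) : SSet.{u} where
  obj n := A.MCCElt (C.dg n.unop) q
  map θ := ↾(MCCElt.map (C.map θ.unop) (C.map_mem _) (C.map_d _))
  map_id n := by
    ext x
    exact MCCElt.map_id_of (C.map_mem _) (C.map_d _) (C.map_id _) x
  map_comp a b := by
    ext x
    exact MCCElt.map_comp_of (C.map_mem _) (C.map_d _) (C.map_mem _) (C.map_d _) (C.map_mem _)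
      (C.map_d _) (C.map_comp _ _) x

/-- The simplicial set `MC_•(A)`, for a model `N` of the simplicial dg algebra `N^•(Δ^•)`. -/
noncomputable def MCA (A : AInf K V) (N : SDG K E) : SSet.{u} := A.MC N A.Q

/-- The simplicial set `MC_•(L_A)`, for a model `Ω` of the simplicial dg algebra `Ω_•`. -/
noncomputable def MCL (A : AInf K V) (Ω : SDG K E) : SSet.{u} :=
  A.MCC Ω (fun k => (k.factorial : K)⁻¹ • A.ell k)

end Pool.Agent.Helper4.MCX.AInf
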