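import Pool.Agent.Helper4.MCX.Ops

/-!
Naturality of the operations on `A ⊗ E` in `E`.
-/

open scoped TensorProduct
open CategoryTheory

universe u

namespace Pool.Agent.Helper4.MCX.AInf

variable {K V E E' : Type u} [Field K] [AddCommGroup V] [Module K V] [Ring E] [Algebra K E]
  [Ring E'] [Algebra K E']

theorem ext_spec (A : AInf K V) (C : DG K E) {k : ℕ}
    (q : MultilinearMap K (fun _ : Fin k => V) V) : IsExt A C q (A.ext C q) :=
  (A.exists_ext C q).exists.choose_spec

theorem dif_spec (A : AInf K V) (C : DG K E) : IsDif A C (A.dif C) :=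
  (A.exists_dif C).exists.choose_spec

theorem ell_spec (A : AInf K V) (k : ℕ) : IsEll A (A.ell k) :=
  (A.exists_ell k).exists.choose_spec

section Nat

variable (A : AInf K V) (C : DG K E) (C' : DG K E') (φ : E →ₐ[K] E')
  (hφ : ∀ i x, x ∈ C.deg i → φ x ∈ C'.deg i)

include hφ in
theorem ext_nat {k : ℕ} (q : MultilinearMap K (fun _ : Fin k => V) V)
    (x : Fin k → V ⊗[K] E) :
    LinearMap.lTensor V φ.toLinearMap (A.ext C q x) =
      A.ext C' q (fun l => LinearMap.lTensor V φ.toLinearMap (x l)) := by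
  have h : (LinearMap.lTensor V φ.toLinearMap).compMultilinearMap (A.ext C q) =
      (A.ext C' q).compLinearMap (fun _ => LinearMap.lTensor V φ.toLinearMap) := by
    apply multi_ext (A.span_Hom C)
    intro x hx
    obtain ⟨i, j, v, e, hv, he, rfl⟩ := choose_hom hx
    simp only [LinearMap.compMultilinearMap_apply, MultilinearMap.compLinearMap_apply,
      LinearMap.lTensor_tmul, AlgHom.toLinearMap_apply]
    rw [A.ext_spec C q i j v e hv he, A.ext_spec C' q i j v (fun l => φ (e l)) hv
      (fun l => hφ _ _ (he l)), negOnePow_smul (K := K), negOnePow_smul (K := K), map_smul,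
      LinearMap.lTensor_tmul, AlgHom.toLinearMap_apply, map_list_prod, List.map_ofFn]
    rfl
  exact congrFun (congrArg DFunLike.coe h) x

variable (hd : ∀ x, φ (C.d x) = C'.d (φ x))

include hd in
theorem dif_nat (x : V ⊗[K] E) :
    LinearMap.lTensor V φ.toLinearMap (A.dif C x) =
      A.dif C' (LinearMap.lTensor V φ.toLinearMap x) := by
  have h : LinearMap.lTensor V φ.toLinearMap ∘ₗ A.dif C =
      A.dif C' ∘ₗ LinearMap.lTensor V φ.toLinearMap := by
    apply LinearMap.ext_on (A.span_Hom C)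
    rintro x ⟨i, j, v, e, hv, he, rfl⟩
    simp only [LinearMap.comp_apply, LinearMap.lTensor_tmul, AlgHom.toLinearMap_apply]
    rw [A.dif_spec C i v e hv, A.dif_spec C' i v (φ e) hv, negOnePow_smul (K := K),
      negOnePow_smul (K := K), map_smul, LinearMap.lTensor_tmul, AlgHom.toLinearMap_apply, hd]
  exact LinearMap.congr_fun h x

include hφ hd in
theorem curv_nat (q : ∀ k : ℕ, MultilinearMap K (fun _ : Fin k => V) V) (N : ℕ) (x : V ⊗[K] E) :
    LinearMap.lTensor V φ.toLinearMap (A.curv C q N x) =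
      A.curv C' q N (LinearMap.lTensor V φ.toLinearMap x) := by
  unfold curv
  rw [map_add, map_sum, A.dif_nat C C' φ hd]
  congr 1
  exact Finset.sum_congr rfl (fun k _ => A.ext_nat C C' φ hφ (q k) (fun _ => x))

include hφ in
theorem Zero_nat {x : V ⊗[K] E} (hx : x ∈ A.Zero C) :
    LinearMap.lTensor V φ.toLinearMap x ∈ A.Zero C' := by
  unfold Zero at hx
  induction hx using Submodule.span_induction with
  | mem x hx =>
    obtain ⟨j, v, e, hv, he, rfl⟩ := hx
    exact Submodule.subset_span ⟨j, v, φ e, hv, hφ j e he, rfl⟩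
  | zero => rw [map_zero]; exact Submodule.zero_mem _
  | add x y _ _ hx hy => rw [map_add]; exact Submodule.add_mem _ hx hy
  | smul c x _ hx => rw [map_smul]; exact Submodule.smul_mem _ c hx

include hφ hd in
theorem IsMC_nat {q : ∀ k : ℕ, MultilinearMap K (fun _ : Fin k => V) V} {x : V ⊗[K] E}
    (hx : A.IsMC C q x) : A.IsMC C' q (LinearMap.lTensor V φ.toLinearMap x) := by
  refine ⟨A.Zero_nat C C' φ hφ hx.1, fun p => ?_⟩
  rw [← A.curv_nat C C' φ hφ hd]
  exact A.Fil_map φ.toLinearMap p (hx.2 p)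

include hφ hd in
theorem IsMCC_nat {q : ∀ k : ℕ, MultilinearMap K (fun _ : Fin k => V) V} {x : A.Compl E}
    (hx : A.IsMCC C q x) : A.IsMCC C' q (Compl.map φ.toLinearMap x) := by
  intro p
  obtain ⟨y, hy, hyx, hc⟩ := hx p
  refine ⟨LinearMap.lTensor V φ.toLinearMap y, A.Zero_nat C C' φ hφ hy, ?_, ?_⟩
  · change _ = Submodule.mapQ _ _ (LinearMap.lTensor V φ.toLinearMap) _ (x.val p)
    rw [← hyx]
    rfl
  · rw [← A.curv_nat C C' φ hφ hd]
    exact A.Fil_map φ.toLinearMap p hc

end Nat

theorem Compl.ext {A : AInf K V} {x y : A.Compl E} (h : ∀ p, x.val p = y.val p) : x = y := by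
  cases x; cases y
  congr 1
  exact funext h

theorem Compl.map_congr {A : AInf K V} {g g' : E →ₗ[K] E'} (h : ∀ e, g e = g' e)
    (x : A.Compl E) : Compl.map g x = Compl.map g' x := by
  have : g = g' := LinearMap.ext h
  rw [this]

theorem Compl.map_id {A : AInf K V} (x : A.Compl E) : Compl.map LinearMap.id x = x := by
  apply Compl.ext
  intro p
  change Submodule.mapQ _ _ (LinearMap.lTensor V LinearMap.id) _ (x.val p) = x.val p
  obtain ⟨y, hy⟩ := Submodule.Quotient.mk_surjective _ (x.val p)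
  rw [← hy]
  change Submodule.Quotient.mk (LinearMap.lTensor V LinearMap.id y) = _
  rw [LinearMap.lTensor_id]; rfl

theorem Compl.map_map {A : AInf K V} {E'' : Type u} [Ring E''] [Algebra K E'']
    (g : E →ₗ[K] E') (g' : E' →ₗ[K] E'') (x : A.Compl E) :
    Compl.map g' (Compl.map g x) = Compl.map (g' ∘ₗ g) x := by
  apply Compl.ext
  intro p
  change Submodule.mapQ _ _ (LinearMap.lTensor V g') _
    (Submodule.mapQ _ _ (LinearMap.lTensor V g) _ (x.val p)) =
    Submodule.mapQ _ _ (LinearMap.lTensor V (g' ∘ₗ g)) _ (x.val p)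
  obtain ⟨y, hy⟩ := Submodule.Quotient.mk_surjective _ (x.val p)
  rw [← hy]
  change Submodule.Quotient.mk (LinearMap.lTensor V g' (LinearMap.lTensor V g y)) =
    Submodule.Quotient.mk (LinearMap.lTensor V (g' ∘ₗ g) y)
  rw [LinearMap.lTensor_comp]; rfl

end Pool.Agent.Helper4.MCX.AInf
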