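import Pool.Agent.Helper4.MCX.Bridge
import Pool.Agent.Helper4.MCX.Eqv

/-!
Existence and uniqueness of the models of normalized cochains and polynomial forms.
-/

open scoped TensorProduct
open CategoryTheory Opposite

universe u

namespace Pool.Agent.Helper4.MCX

open MCA MCB

variable {K : Type u} [Field K] [CharZero K]

/-! ### Cochains -/

theorem ncSDG_isCochains : (ncSDG K).IsCochains (fun _ x => x.1) where
  add _ _ _ _ := rfl
  smul _ _ _ _ := rfl
  inj _ _ _ h := Subtype.ext h
  range n f := ⟨fun ⟨x, hx⟩ => hx ▸ x.2, fun h => ⟨⟨f, h⟩, rfl⟩⟩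
  deg _ _ _ := Iff.rfl
  mul _ _ _ _ := rfl
  d _ x _ hl := NCo.d_val (f := x) hl
  map _ _ _ _ _ := rfl

section Cochains

variable {E : SimplexCategory → Type u} [∀ n, Ring (E n)] [∀ n, Algebra K (E n)] {N : SDG K E}
  {val : ∀ n, E n → List (Fin (n.len + 1)) → K} (h : N.IsCochains val)

/-- the comparison as a linear map -/
def ncL (n : SimplexCategory) : E n →ₗ[K] NCo K n where
  toFun x := ⟨val n x, (h.range n (val n x)).1 ⟨x, rfl⟩⟩
  map_add' x y := Subtype.ext (funext fun l => h.add n x y l)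
  map_smul' c x := Subtype.ext (funext fun l => h.smul n c x l)

theorem ncL_bij (n : SimplexCategory) : Function.Bijective (ncL h n) := by
  constructor
  · intro x y hxy
    exact h.inj n (congrArg Subtype.val hxy)
  · rintro ⟨f, hf⟩
    obtain ⟨x, hx⟩ := (h.range n f).2 hf
    exact ⟨x, Subtype.ext hx⟩

theorem ncL_mul (n : SimplexCategory) (x y : E n) : ncL h n (x * y) = ncL h n x * ncL h n y :=
  Subtype.ext (funext fun l => h.mul n x y l)

theorem ncL_one (n : SimplexCategory) : ncL h n 1 = 1 := by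
  obtain ⟨x, hx⟩ := (ncL_bij h n).2 1
  have := ncL_mul h n 1 x
  rw [one_mul, hx, mul_one] at this
  exact this.symm

/-- the comparison -/
noncomputable def ncEqv : N.Eqv (ncSDG K) where
  e n := AlgEquiv.ofBijective (AlgHom.ofLinearMap (ncL h n) (ncL_one h n) (ncL_mul h n))
    (ncL_bij h n)
  e_mem n i x hx := (h.deg n i x).1 hx
  e_d n x := by
    apply NCo.ext_inc
    intro l _ hl
    have h2 : (NCo.d n (ncL h n x)).1 l = Cup.dd (ncL h n x).1 l := NCo.d_val hl
    exact (h.d n x l hl).trans h2.symm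
  e_map a x := Subtype.ext (funext fun l => h.map _ _ a x l)

end Cochains

/-! ### Forms -/

theorem prSDG_isForms : (prSDG K).IsForms (fun n => Pres.tt (OmegaRel K) n) where
  mem _ i := Pres.tt_mem i
  sum _ := Pres.sum_tt
  map _ _ a j := Pres.pb_tt Omega.good a j
  comm _ i j x y hx hy := Omega.gcomm hx hy
  univ n B _ _ b c h1 h2 h3 := by
    have key : ∀ i : Fin n.len, ((prSDG K).dg n).d (Pres.tt (OmegaRel K) n i.succ) =
        Omega.dt K n i := fun i => Pres.d_t Omega.good i
    refine ⟨Pres.lift (Sum.elim b c) (Omega.resp h1 h2 h3), fun i => ⟨?_, ?_⟩, fun φ hφ => ?_⟩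
    · exact Pres.lift_gen _ _ _
    · rw [key]; exact Pres.lift_gen _ _ _
    · apply Pres.hom_ext
      rintro (i | i)
      · exact (hφ i).1.trans (Pres.lift_gen (Sum.elim b c) _ (Sum.inl i)).symm
      · have h := (hφ i).2
        rw [key] at h
        exact h.trans (Pres.lift_gen (Sum.elim b c) _ (Sum.inr i)).symm

section Forms

variable {E : SimplexCategory → Type u} [∀ n, Ring (E n)] [∀ n, Algebra K (E n)] {Ω : SDG K E}
  {t : ∀ n : SimplexCategory, Fin (n.len + 1) → E n} (h : Ω.IsForms t)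

include h in
theorem forms_tt (n : SimplexCategory) (i j : Fin (n.len + 1)) : t n i * t n j = t n j * t n i := by
  have := h.comm n 0 0 _ _ (h.mem n i) (h.mem n j)
  simpa using this

include h in
theorem forms_tdt (n : SimplexCategory) (i j : Fin (n.len + 1)) :
    t n i * (Ω.dg n).d (t n j) = (Ω.dg n).d (t n j) * t n i := by
  have := h.comm n 0 1 _ _ (h.mem n i) ((Ω.dg n).d_mem 0 _ (h.mem n j))
  simpa using this

include h in
theorem forms_dtdt (n : SimplexCategory) (i j : Fin (n.len + 1)) :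
    (Ω.dg n).d (t n i) * (Ω.dg n).d (t n j) = -((Ω.dg n).d (t n j) * (Ω.dg n).d (t n i)) := by
  have := h.comm n 1 1 _ _ ((Ω.dg n).d_mem 0 _ (h.mem n i)) ((Ω.dg n).d_mem 0 _ (h.mem n j))
  simpa using this

/-- the comparison map -/
noncomputable def frF (n : SimplexCategory) : Pres (OmegaRel K) n →ₐ[K] E n :=
  Pres.lift (Sum.elim (fun i => t n i.succ) (fun i => (Ω.dg n).d (t n i.succ)))
    (Omega.resp (fun i j => forms_tt h n _ _) (fun i j => forms_tdt h n _ _)
      (fun i j => forms_dtdt h n _ _))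

theorem frF_t (n : SimplexCategory) (i : Fin n.len) :
    frF h n (Pres.gen _ (Sum.inl i)) = t n i.succ := Pres.lift_gen _ _ _

theorem frF_dt (n : SimplexCategory) (i : Fin n.len) :
    frF h n (Pres.gen _ (Sum.inr i)) = (Ω.dg n).d (t n i.succ) := Pres.lift_gen _ _ _

theorem frF_bij (n : SimplexCategory) : Function.Bijective (frF h n) := by
  obtain ⟨g, hg, -⟩ := h.univ n (Pres (OmegaRel K) n) (fun i => Omega.t K n i)
    (fun i => Omega.dt K n i) Omega.t_t Omega.t_dt Omega.dt_dt
  have h1 : ∀ x, g (frF h n x) = x := by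
    have : g.comp (frF h n) = AlgHom.id K _ := by
      apply Pres.hom_ext
      rintro (i | i)
      · rw [AlgHom.comp_apply, frF_t]; exact (hg i).1
      · rw [AlgHom.comp_apply, frF_dt]; exact (hg i).2
    exact fun x => congrFun (congrArg DFunLike.coe this) x
  have h2 : ∀ x, frF h n (g x) = x := by
    obtain ⟨φ, -, hφ⟩ := h.univ n (E n) (fun i => t n i.succ) (fun i => (Ω.dg n).d (t n i.succ))
      (fun i j => forms_tt h n _ _) (fun i j => forms_tdt h n _ _) (fun i j => forms_dtdt h n _ _)
    have e1 := hφ ((frF h n).comp g) (fun i => by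
      rw [AlgHom.comp_apply, AlgHom.comp_apply, (hg i).1, (hg i).2]
      exact ⟨frF_t h n i, frF_dt h n i⟩)
    have e2 := hφ (AlgHom.id K _) (fun i => ⟨rfl, rfl⟩)
    exact fun x => congrFun (congrArg DFunLike.coe (e1.trans e2.symm)) x
  exact ⟨Function.LeftInverse.injective h1, Function.RightInverse.surjective h2⟩

theorem frF_mono (n : SimplexCategory) {j w : ℕ} {x : Pres (OmegaRel K) n}
    (hx : Pres.IsMono j w x) : frF h n x ∈ (Ω.dg n).deg j := by
  induction hx with
  | one => rw [map_one]; exact (Ω.dg n).one_mem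
  | @t i j w x _ ih =>
    rw [map_mul, frF_t, ← zero_add j]
    exact (Ω.dg n).mul_mem _ _ _ _ (h.mem n _) ih
  | @dt i j w x _ ih =>
    rw [map_mul, frF_dt, add_comm j 1]
    exact (Ω.dg n).mul_mem _ _ _ _ ((Ω.dg n).d_mem 0 _ (h.mem n _)) ih

theorem frF_mem (n : SimplexCategory) (j : ℕ) (x : Pres (OmegaRel K) n)
    (hx : x ∈ Pres.deg (OmegaRel K) n j) : frF h n x ∈ (Ω.dg n).deg j := by
  unfold Pres.deg at hx
  induction hx using Submodule.span_induction with
  | mem x hx => obtain ⟨w, hw⟩ := hx; exact frF_mono h n hw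
  | zero => rw [map_zero]; exact Submodule.zero_mem _
  | add x y _ _ hx hy => rw [map_add]; exact Submodule.add_mem _ hx hy
  | smul c x _ hx => rw [map_smul]; exact Submodule.smul_mem _ c hx

theorem d_one' (n : SimplexCategory) : (Ω.dg n).d 1 = 0 := by
  have := (Ω.dg n).leibniz 0 1 1 (Ω.dg n).one_mem
  simp only [mul_one, pow_zero, one_mul, one_smul] at this
  have h2 : (Ω.dg n).d 1 + (Ω.dg n).d 1 = (Ω.dg n).d 1 + 0 := by rw [add_zero]; exact this.symm
  exact add_left_cancel h2

theorem frF_d (n : SimplexCategory) (x : Pres (OmegaRel K) n) :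
    frF h n (Pres.d (Omega.good (K := K)) n x) = (Ω.dg n).d (frF h n x) := by
  have : (frF h n).toLinearMap ∘ₗ Pres.d (Omega.good (K := K)) n =
      (Ω.dg n).d ∘ₗ (frF h n).toLinearMap := by
    apply Pres.lin_ext'
    · change frF h n (Pres.d (Omega.good (K := K)) n 1) = (Ω.dg n).d (frF h n 1)
      rw [Pres.d_one, map_zero, map_one, d_one']
    · rintro (i | i) x hx
      · change frF h n (Pres.d (Omega.good (K := K)) n x) = (Ω.dg n).d (frF h n x) at hx
        change frF h n (Pres.d (Omega.good (K := K)) n (_ * x)) = (Ω.dg n).d (frF h n (_ * x))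
        rw [Pres.d_t_mul, map_add, map_mul, map_mul, map_mul, hx, frF_t, frF_dt,
          (Ω.dg n).leibniz 0 _ _ (h.mem n _), pow_zero, one_smul, add_comm]
      · change frF h n (Pres.d (Omega.good (K := K)) n x) = (Ω.dg n).d (frF h n x) at hx
        change frF h n (Pres.d (Omega.good (K := K)) n (_ * x)) = (Ω.dg n).d (frF h n (_ * x))
        rw [Pres.d_dt_mul, map_neg, map_mul, map_mul, hx, frF_dt,
          (Ω.dg n).leibniz 1 _ _ ((Ω.dg n).d_mem 0 _ (h.mem n _)), (Ω.dg n).d_d, zero_mul,
          zero_add, pow_one, neg_smul, one_smul]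
  exact LinearMap.congr_fun this x

theorem frF_tt (n : SimplexCategory) (i : Fin (n.len + 1)) :
    frF h n (Pres.tt (OmegaRel K) n i) = t n i := by
  refine Fin.cases ?_ (fun i => ?_) i
  · change frF h n (1 - ∑ i : Fin n.len, Pres.gen _ (Sum.inl i)) = _
    have hs := h.sum n
    rw [Fin.sum_univ_succ] at hs
    rw [map_sub, map_one, map_sum, ← hs]
    simp only [frF_t]
    abel
  · exact frF_t h n i

theorem frF_dtt (n : SimplexCategory) (i : Fin (n.len + 1)) :
    frF h n (Pres.dtt (OmegaRel K) n i) = (Ω.dg n).d (t n i) := by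
  rw [← Pres.d_tt (Omega.good (K := K)), frF_d, frF_tt]

theorem frF_pb {m n : SimplexCategory} (a : m ⟶ n) (x : Pres (OmegaRel K) n) :
    frF h m (Pres.pb (Omega.good (K := K)) a x) = Ω.map a (frF h n x) := by
  have : (frF h m).comp (Pres.pb (Omega.good (K := K)) a) = (Ω.map a).comp (frF h n) := by
    apply Pres.hom_ext
    rintro (i | i)
    · rw [AlgHom.comp_apply, AlgHom.comp_apply, Pres.pb_t, map_sum, frF_t, h.map]
      simp only [frF_tt]
    · rw [AlgHom.comp_apply, AlgHom.comp_apply, Pres.pb_dt, map_sum, frF_dt, Ω.map_d, h.map,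
        map_sum]
      simp only [frF_dtt]
  exact congrFun (congrArg DFunLike.coe this) x

/-- the comparison -/
noncomputable def frEqv : (prSDG K).Eqv Ω where
  e n := AlgEquiv.ofBijective (frF h n) (frF_bij h n)
  e_mem n i x hx := frF_mem h n i x hx
  e_d n x := frF_d h n x
  e_map a x := frF_pb h a x

end Forms

end Pool.Agent.Helper4.MCX
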